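import Pool.Agent.SCT.StmtsC

/-!
# Squad SCT, row P2
-/

set_option autoImplicit false

namespace Pool.Agent.SCT.H58

open MvPolynomial

variable {k Ω : Type} [Field k] [Field Ω] [Algebra k Ω]

theorem aeval_mem {ι : Type} (L : IntermediateField k Ω) (y : ι → Ω) (hy : ∀ i, y i ∈ L)
    (g : MvPolynomial ι k) : aeval y g ∈ L := by
  have h : aeval y g = algebraMap L Ω (aeval (fun i => (⟨y i, hy i⟩ : L)) g) := by
    rw [← aeval_algebraMap_apply]
    rfl
  rw [h]
  exact (aeval (fun i => (⟨y i, hy i⟩ : L)) g).2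

theorem dd_mem {ι : Type} [Fintype ι] (L : IntermediateField k Ω) (y z : ι → Ω)
    (hy : ∀ i, y i ∈ L) (hz : ∀ i, z i ∈ L) (g : MvPolynomial ι k) : dd g y z ∈ L :=
  sum_mem fun i _ => mul_mem (hz i) (aeval_mem L y hy _)

theorem rat_le_of {ι : Type} (L : IntermediateField k Ω) (y : ι → Ω) (hy : ∀ i, y i ∈ L) :
    rat k y ≤ L := by
  unfold rat
  rw [IntermediateField.adjoin_le_iff]
  rintro _ ⟨i, j, rfl⟩
  exact div_mem (hy i) (hy j)

theorem trdeg_mono {L1 L2 : IntermediateField k Ω} (h : L1 ≤ L2) :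
    Algebra.trdeg k L1 ≤ Algebra.trdeg k L2 :=
  _root_.trdeg_le_of_injective (IntermediateField.inclusion h)
    (IntermediateField.inclusion h).injective

theorem p2 (hE : ExpStmt) (hS : SupStmt) : P2Stmt := by
  intro k _ n a b f x u v c hab hf hf0 hs huv
  let e : FT k n →ₐ[k] Cl k n := IsScalarTower.toAlgHom k (FT k n) (Cl k n)
  have he : ∀ z, e z = algebraMap (FT k n) (Cl k n) z := fun _ => rfl
  rw [← dimLe2_map e]
  have hc := hE k (Cl k n) (Fin (n + 2)) f hf
  have haev : ∀ (y : Fin (n + 2) → FT k n) (g : MvPolynomial (Fin (n + 2)) k),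
      aeval (fun i => e (y i)) g = e (aeval y g) := fun y g => by
    rw [← MvPolynomial.comp_aeval_apply]
  have hdd : ∀ (y z : Fin (n + 2) → FT k n), dd f (fun i => e (y i)) (fun i => e (z i)) =
      e (dd f y z) := fun y z => by
    simp only [dd, haev, map_sum, map_mul]
  obtain ⟨hx, h0, h1, h2, ha, hb⟩ := hs
  have hT : aeval (fun i => e (gen k n i)) f ≠ 0 := by
    rw [haev]
    exact fun h => aeval_gen_ne hf0 ((map_eq_zero_iff e e.injective).1 h)
  have hX : aeval (fun i => e (x i)) f = 0 := by rw [haev, h0, map_zero]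
  set X : Fin (n + 2) → Cl k n := fun i => e (x i) with hXd
  set T : Fin (n + 2) → Cl k n := fun i => e (gen k n i) with hTd
  have h1' : dd f T X = -dd f X T * (u + v) := by rw [hTd, hXd, hdd, hdd]; exact h1
  have h2' : aeval T f = dd f X T * (u * v) := by rw [hTd, hXd, hdd, haev]; exact h2
  set p : Fin (n + 2) → Cl k n := pt k n x u with hpd
  set q : Fin (n + 2) → Cl k n := pt k n x v with hqd
  have hp : ∀ i, p i = T i + u * X i := fun i => rfl
  have hq : ∀ i, q i = T i + v * X i := fun i => rfl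
  have hfp : aeval p f = 0 := by
    have := (hc T X u).1
    rw [show (fun i => T i + u * X i) = p from rfl, hX, h1', h2'] at this
    rw [this]
    ring
  have hfq : aeval q f = 0 := by
    have := (hc T X v).1
    rw [show (fun i => T i + v * X i) = q from rfl, hX, h1', h2'] at this
    rw [this]
    ring
  have hzero : ∀ w : Cl k n, ∃ i, T i + w * X i ≠ 0 := by
    intro w
    by_contra h
    push Not at h
    apply hT
    have h3 : T = fun i => (-w) * X i := by
      funext i
      linear_combination h i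
    rw [h3, (hc X X (-w)).2.2.2.1, hX, mul_zero]
  obtain ⟨i, hi⟩ := hzero u
  obtain ⟨j, hj⟩ := hzero v
  have hpi : p i ≠ 0 := hi
  have hqj : q j ≠ 0 := hj
  have huv' : u - v ≠ 0 := sub_ne_zero.2 huv
  set L : IntermediateField k (Cl k n) := rat k p ⊔ rat k q with hL
  set p' : Fin (n + 2) → Cl k n := fun l => p l / p i with hp'
  set q' : Fin (n + 2) → Cl k n := fun l => q l / q j with hq'
  have hp'L : ∀ l, p' l ∈ L := fun l =>
    (le_sup_left : rat k p ≤ L) (IntermediateField.subset_adjoin _ _ ⟨l, i, rfl⟩)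
  have hq'L : ∀ l, q' l ∈ L := fun l =>
    (le_sup_right : rat k q ≤ L) (IntermediateField.subset_adjoin _ _ ⟨l, j, rfl⟩)
  have hpp : ∀ l, p l = p i * p' l := fun l => (mul_div_cancel₀ _ hpi).symm
  have hqq : ∀ l, q l = q j * q' l := fun l => (mul_div_cancel₀ _ hqj).symm
  have hfp' : aeval p' f = 0 := by
    have h3 : p = fun l => p i * p' l := funext hpp
    rw [h3, (hc p' p' (p i)).2.2.2.1] at hfp
    exact (mul_eq_zero.1 hfp).resolve_left (pow_ne_zero _ hpi)
  have hfq' : aeval q' f = 0 := by
    have h3 : q = fun l => q j * q' l := funext hqq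
    rw [h3, (hc q' q' (q j)).2.2.2.1] at hfq
    exact (mul_eq_zero.1 hfq).resolve_left (pow_ne_zero _ hqj)
  set A := dd f p' q' with hA
  set B := dd f q' p' with hB
  have hline : ∀ w s : Cl k n, aeval (fun l => s * (p' l + w * q' l)) f =
      s ^ 3 * (w * A + w ^ 2 * B) := by
    intro w s
    rw [(hc (fun l => p' l + w * q' l) p' s).2.2.2.1, (hc p' q' w).1, hfp', hfq']
    ring
  have hXe : ∀ l, X l = p i / (u - v) * (p' l + (-(q j) / p i) * q' l) := by
    intro l
    have h4 : (u - v) * X l = p l - q l := by rw [hp, hq]; ring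
    rw [hpp, hqq] at h4
    field_simp
    rw [mul_comm, h4]
    ring
  have hAB : p i * A = q j * B := by
    have h5 := hline (-(q j) / p i) (p i / (u - v))
    rw [← funext hXe, hX] at h5
    have h6 : (-(q j) / p i) * A + (-(q j) / p i) ^ 2 * B = 0 :=
      (mul_eq_zero.1 h5.symm).resolve_left (pow_ne_zero _ (div_ne_zero hpi huv'))
    have h7 : (-(q j) / p i) * A + (-(q j) / p i) ^ 2 * B
        = (-(q j) / p i ^ 2) * (p i * A - q j * B) := by
      field_simp
      ring
    rw [h7] at h6
    exact sub_eq_zero.1 ((mul_eq_zero.1 h6).resolve_left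
      (div_ne_zero (neg_ne_zero.2 hqj) (pow_ne_zero _ hpi)))
  have hB0 : B ≠ 0 := by
    intro hB0
    have hA0 : A = 0 := by
      rw [hB0, mul_zero] at hAB
      exact (mul_eq_zero.1 hAB).resolve_left hpi
    apply hT
    have hD : v ≠ 0 := by
      intro hv
      apply hT
      rw [h2', hv, mul_zero, mul_zero]
    have hTe : ∀ l, T l = -(v * p i) / (u - v) * (p' l + (-(u * q j) / (v * p i)) * q' l) := by
      intro l
      have h4 : (u - v) * T l = u * q l - v * p l := by rw [hp, hq]; ring
      rw [hpp, hqq] at h4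
      field_simp
      rw [mul_comm, h4]
      ring
    rw [funext hTe, hline, hA0, hB0]
    ring
  have hXp : X = fun l => (p i / (B * (u - v))) * (B * p' l - A * q' l) := by
    funext l
    rw [hXe]
    have h8 : A = q j * B / p i := by
      rw [eq_div_iff hpi, mul_comm]
      exact hAB
    rw [h8]
    field_simp
    ring
  have hc1 : p i / (B * (u - v)) ≠ 0 := div_ne_zero hpi (mul_ne_zero hB0 huv')
  have hAL : A ∈ L := dd_mem L p' q' hp'L hq'L f
  have hBL : B ∈ L := dd_mem L q' p' hq'L hp'L f
  have hR1 : rat k X ≤ L := by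
    rw [hXp, rat_smul hc1]
    exact rat_le_of L _ fun l => sub_mem (mul_mem hBL (hp'L l)) (mul_mem hAL (hq'L l))
  have hH : (fun l => e (hyp k n c x l)) = fun l => (p i * q j / (u - v)) *
      ((∑ m, algebraMap k (Cl k n) (c m) * q' m) * p' l -
        (∑ m, algebraMap k (Cl k n) (c m) * p' m) * q' l) := by
    funext l
    have h9 : e (hyp k n c x l) = (∑ m, algebraMap k (Cl k n) (c m) * T m) * X l -
        (∑ m, algebraMap k (Cl k n) (c m) * X m) * T l := by
      simp only [hyp, map_sub, map_mul, map_sum, AlgHom.commutes, hTd, hXd]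
    have hsum : ∀ (y z : Fin (n + 2) → Cl k n) (r s : Cl k n),
        (∑ m, algebraMap k (Cl k n) (c m) * (r * y m + s * z m)) =
        r * (∑ m, algebraMap k (Cl k n) (c m) * y m) +
        s * (∑ m, algebraMap k (Cl k n) (c m) * z m) := by
      intro y z r s
      rw [Finset.mul_sum, Finset.mul_sum, ← Finset.sum_add_distrib]
      refine Finset.sum_congr rfl fun m _ => ?_
      ring
    have hXm : ∀ m, X m = (p i / (u - v)) * p' m + (-(q j) / (u - v)) * q' m := by
      intro m
      rw [hXe]
      field_simp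
    have hTm : ∀ m, T m = (-(v * p i) / (u - v)) * p' m + (u * q j / (u - v)) * q' m := by
      intro m
      have h4 : (u - v) * T m = u * q m - v * p m := by rw [hp, hq]; ring
      rw [hpp, hqq] at h4
      field_simp
      rw [mul_comm, h4]
      ring
    rw [h9]
    simp only [hXm, hTm]
    rw [hsum, hsum]
    field_simp
    ring
  have hR2 : rat k (fun l => e (hyp k n c x l)) ≤ L := by
    rw [hH, rat_smul (div_ne_zero (mul_ne_zero hpi hqj) huv')]
    exact rat_le_of L _ fun l => sub_mem
      (mul_mem (sum_mem fun m _ => mul_mem (L.algebraMap_mem _) (hq'L m)) (hp'L l))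
      (mul_mem (sum_mem fun m _ => mul_mem (L.algebraMap_mem _) (hp'L m)) (hq'L l))
  have hle := trdeg_mono (sup_le hR1 hR2)
  have hfin := hS k (Cl k n) (rat k p) (rat k q) a b ha hb
  rw [hab] at hfin
  exact hle.trans hfin

end Pool.Agent.SCT.H58
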