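import Pool.Agent.SCT.StmtsB

/-!
# Squad SCT, row TRD
-/

set_option autoImplicit false

namespace Pool.Agent.SCT.H58

open MvPolynomial

theorem trd (hT : TayStmt) (hJ : JacStmt) (hD : DerStmt) (hR : RnkStmt) (hM : MatStmt) :
    TrdStmt := by
  intro k _ _ n a b w c s1 s2 α β d hab hwc hlin hs hp hβ hne h1 h2 hd
  obtain ⟨D, hD⟩ := hD k n
  have r1 := hR k n D hD w s1 a hlin h1
  have r2 := hR k n D hD w s2 b hlin h2
  have hm : n ≤ Module.finrank (FT k n) (Submodule.span (FT k n)
      (Set.range fun (j : Fin (n + 2)) (i : Fin (n + 2)) => D j (w i))) :=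
    hM (FT k n) (Cl k n) n a b (gen k n) w (fun j i => D j (w i)) s1 s2 α β hab hlin hs hp hβ hne
      r1 r2
  have hle : Submodule.span (FT k n)
      (Set.range fun (j : Fin (n + 2)) (i : Fin (n + 2)) => D j (w i)) ≤ tan k w := by
    rw [Submodule.span_le]
    rintro _ ⟨j, rfl⟩ g hg
    rw [← (hT k (FT k n) (Fin (n + 2)) w w g).2 (D j), hg, map_zero]
  have hrat : rat k w = IntermediateField.adjoin k (Set.range w) := by
    have hc : w c ≠ 0 := by rw [hwc]; exact one_ne_zero
    rw [rat_eq hc]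
    simp only [hwc, div_one]
  have hj : Module.finrank (FT k n) (tan k w) ≤ d := by
    apply hJ k (FT k n) (Fin (n + 2)) w d
    rw [← hrat]
    exact hd
  exact hm.trans ((Submodule.finrank_mono hle).trans hj)

end Pool.Agent.SCT.H58
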